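import Pool.Agent.H178.GC.Euler

/-!
# Greenberg's conjecture for `p = 5` and all `N = 2^a 3^b`

For `p = 5` and `N = 2^a 3^b` the even characters `θ` modulo `5 N` are the `ψ ω^m` with a primitive character `ψ`
modulo a divisor `2^c 3^d` of `N`, `1 ≤ m ≤ 4`, `ψ(-1) = (-1)^m`. We show that the value

  `L_5(1 - m, θ) = - (1 - ψ(5) 5^(m-1)) B_{m,ψ} / m`

of the `5`-adic `L`-function is a unit at all places above `5`, except in the six cases
`(c, d, m) = (0,0,4), (2,0,1), (3,1,1), (4,0,2), (4,1,3), (2,2,4)`.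
-/

set_option autoImplicit false

namespace Pool.Agent.Results.MP_c2a07f_nt.FiveTwoThreePowers

/-- The generalized Bernoulli number `B_{m,ψ} = N^(m-1) ∑_{a=1}^N ψ(a) B_m(a/N)`. -/
noncomputable def genBernoulli (m : ℕ) {N : ℕ} (ψ : DirichletCharacter ℂ N) : ℂ :=
  (N : ℂ) ^ (m - 1) * ∑ a ∈ Finset.Icc 1 N, ψ (a : ZMod N) *
    (((Polynomial.bernoulli m).eval ((a : ℚ) / N) : ℚ) : ℂ)

/-- `(1 - ψ(p) p^(m-1)) B_{m,ψ} / m`, the value at `1 - m` of the `L`-function of `ψ` without Euler factor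
at `p` (up to the sign). -/
noncomputable def lValue (p m : ℕ) {N : ℕ} (ψ : DirichletCharacter ℂ N) : ℂ :=
  (1 - ψ (p : ZMod N) * (p : ℂ) ^ (m - 1)) * genBernoulli m ψ / m

/-- `z` is a unit at all places above `p`: it is not zero, and for some integer `c` prime to `p` the numbers
`c z` and `c / z` are algebraic integers. -/
def IsUnitAt (p : ℕ) (z : ℂ) : Prop :=
  z ≠ 0 ∧ ∃ c : ℤ, IsCoprime (p : ℤ) c ∧ IsIntegral ℤ ((c : ℂ) * z) ∧ IsIntegral ℤ ((c : ℂ) * z⁻¹)

open Finset Pool.Agent.Y18.GX Pool.Agent.H178.GC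

lemma sum_Icc {N : ℕ} (f : ℕ → ℂ) (h0 : f 0 = 0) (hN : f N = 0) :
    ∑ a ∈ Icc 1 N, f a = ∑ a ∈ range N, f a := by
  rcases Nat.eq_zero_or_pos N with h | h
  · subst h
    simp
  · have h1 : ∑ a ∈ range (N + 1), f a = ∑ a ∈ range N, f a + f N := Finset.sum_range_succ f N
    have h2 : ∑ a ∈ range (N + 1), f a = ∑ a ∈ Icc 1 N, f a + f 0 := by
      rw [Finset.sum_range_succ']
      congr 1
      refine Finset.sum_bij (fun a _ => a + 1) ?_ ?_ ?_ (fun _ _ => rfl)
      · intro a ha
        have := mem_range.1 ha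
        rw [mem_Icc]
        omega
      · intro a _ b _ hab
        omega
      · intro b hb
        rw [mem_Icc] at hb
        exact ⟨b - 1, mem_range.2 (by omega), by omega⟩
    rw [h1, hN, h0, add_zero, add_zero] at h2
    exact h2.symm

lemma lValue_eq {p m N : ℕ} (hN1 : N ≠ 1) (ψ : DirichletCharacter ℂ N) :
    lValue p m ψ = (1 - ψ (p : ZMod N) * (p : ℂ) ^ (m - 1)) * ((N : ℂ) ^ (m - 1) *
      ∑ a ∈ range N, ψ (a : ZMod N) * (((Polynomial.bernoulli m).eval ((a : ℚ) / N) : ℚ) : ℂ)) / m := by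
  unfold lValue genBernoulli
  rw [sum_Icc]
  · rw [Nat.cast_zero, DirichletCharacter.map_zero' ψ hN1, zero_mul]
  · rw [ZMod.natCast_self, DirichletCharacter.map_zero' ψ hN1, zero_mul]

lemma unit_rat {p : ℕ} (a b : ℤ) (ha : a ≠ 0) (hb : b ≠ 0) (hpa : IsCoprime (p : ℤ) a) (hpb : IsCoprime (p : ℤ) b)
    {z : ℂ} (hz : z = a / b) : IsUnitAt p z := by
  have ha' : (a : ℂ) ≠ 0 := by exact_mod_cast ha
  have hb' : (b : ℂ) ≠ 0 := by exact_mod_cast hb
  refine ⟨by rw [hz]; exact div_ne_zero ha' hb', a * b, hpa.mul_right hpb, ?_, ?_⟩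
  · have : ((a * b : ℤ) : ℂ) * z = ((a ^ 2 : ℤ) : ℂ) := by
      rw [hz]
      push_cast
      field_simp
    rw [this]
    exact isIntegral_algebraMap (x := a ^ 2)
  · have : ((a * b : ℤ) : ℂ) * z⁻¹ = ((b ^ 2 : ℤ) : ℂ) := by
      rw [hz]
      push_cast
      field_simp
    rw [this]
    exact isIntegral_algebraMap (x := b ^ 2)

lemma level_one {m : ℕ} (hm1 : 1 ≤ m) (hm4 : m ≤ 4) (hm : m ≠ 4) (ψ : DirichletCharacter ℂ (2 ^ 0 * 3 ^ 0))
    (hpar : ψ (-1) = (-1) ^ m) : IsUnitAt 5 (lValue 5 m ψ) := by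
  have hψ : ∀ x, ψ x = 1 := fun x => by
    have : x = 1 := Subsingleton.elim (α := ZMod 1) x 1
    rw [this, map_one]
  rw [hψ] at hpar
  have hm2 : m = 2 := by
    interval_cases m
    · norm_num at hpar
    · rfl
    · norm_num at hpar
    · exact absurd rfl hm
  subst hm2
  refine unit_rat (-1) 3 (by norm_num) (by norm_num) (by norm_num) (by norm_num) ?_
  have h2 : (Polynomial.bernoulli 2).eval (1 : ℚ) = 1 / 6 := by
    rw [Polynomial.bernoulli_eval_one]
    exact bernoulli'_two
  unfold lValue genBernoulli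
  simp only [hψ, pow_zero, mul_one, Icc_self, sum_singleton, Nat.cast_one, div_one, h2]
  norm_num

/-- **Main theorem.** For a primitive character `ψ` modulo `2^a 3^b` and `1 ≤ m ≤ 4` with `ψ(-1) = (-1)^m` the
value `(1 - ψ(5) 5^(m-1)) B_{m,ψ} / m` is a unit at all places above `5`, except for six triples `(a, b, m)`. -/
theorem result (a b m : ℕ) (hm1 : 1 ≤ m) (hm4 : m ≤ 4)
    (ψ : DirichletCharacter ℂ (2 ^ a * 3 ^ b)) (hprim : ψ.IsPrimitive) (hpar : ψ (-1) = (-1) ^ m)
    (hexc : (a, b, m) ≠ (0, 0, 4) ∧ (a, b, m) ≠ (2, 0, 1) ∧ (a, b, m) ≠ (3, 1, 1) ∧ (a, b, m) ≠ (4, 0, 2) ∧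
      (a, b, m) ≠ (4, 1, 3) ∧ (a, b, m) ≠ (2, 2, 4)) :
    IsUnitAt 5 (lValue 5 m ψ) := by
  obtain ⟨x1, x2, x3, x4, x5, x6⟩ := hexc
  simp only [ne_eq, Prod.mk.injEq] at x1 x2 x3 x4 x5 x6
  have hp5 : Nat.Prime 5 := by norm_num
  have hN0 : 2 ^ a * 3 ^ b ≠ 0 := by positivity
  -- `a = 1` is impossible
  have ha1 : a ≠ 1 := by
    rintro rfl
    obtain ⟨u, hu1, hu2, hu3⟩ := prim_exists hN0 ψ hprim (d := 3 ^ b) ⟨2, by ring⟩ (by
      have : 0 < 3 ^ b := by positivity
      omega)
    apply hu3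
    have h1 : u ≡ 1 [MOD 2 ^ 1 * 3 ^ b] := by
      refine (Nat.modEq_and_modEq_iff_modEq_mul (cop23 1 b)).1 ⟨?_, hu2⟩
      have h2 : u.Coprime 2 := Nat.Coprime.coprime_dvd_right ((dvd_pow_self 2 (by norm_num)).trans (dvd_mul_right _ _)) hu1
      have h3 : ¬ 2 ∣ u := fun h => by
        have := Nat.dvd_gcd h (dvd_refl 2)
        rw [h2] at this
        omega
      rw [Nat.ModEq, pow_one]
      omega
    have h2 := (ZMod.natCast_eq_natCast_iff _ _ _).2 h1
    rw [h2, Nat.cast_one, map_one]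
  by_cases h00 : a = 0 ∧ b = 0
  · obtain ⟨rfl, rfl⟩ := h00
    exact level_one hm1 hm4 (fun h => x1 ⟨rfl, rfl, h⟩) ψ hpar
  · have hN1 : 2 ^ a * 3 ^ b ≠ 1 := by
      intro h
      have h1 := Nat.eq_one_of_mul_eq_one_right h
      have h2 := Nat.eq_one_of_mul_eq_one_left h
      apply h00
      constructor
      · by_contra h3
        have := Nat.one_lt_pow (n := a) h3 (by norm_num : 1 < 2)
        omega
      · by_contra h3
        have := Nat.one_lt_pow (n := b) h3 (by norm_num : 1 < 3)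
        omega
    have hψ1 : ψ ≠ 1 := by
      have : NeZero (2 ^ a * 3 ^ b) := ⟨hN0⟩
      intro h
      rw [h, DirichletCharacter.isPrimitive_def, DirichletCharacter.conductor_one] at hprim
      exact hN1 hprim.symm
    have hφ : ¬ 5 ∣ (2 ^ a * 3 ^ b).totient := by
      rw [Nat.totient_mul (cop23 a b)]
      intro h
      have hdvd : (2 ^ a).totient * (3 ^ b).totient ∣ 2 ^ (a + b) * 3 ^ b := by
        have e2 : (2 ^ a).totient ∣ 2 ^ a := by
          rcases Nat.eq_zero_or_pos a with h0 | h0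
          · subst h0
            simp
          · rw [Nat.totient_prime_pow Nat.prime_two h0, show 2 - 1 = 1 from rfl, mul_one]
            exact pow_dvd_pow 2 (by omega)
        have e3 : (3 ^ b).totient ∣ 2 ^ b * 3 ^ b := by
          rcases Nat.eq_zero_or_pos b with h0 | h0
          · subst h0
            simp
          · rw [Nat.totient_prime_pow Nat.prime_three h0, show 3 - 1 = 2 from rfl, mul_comm]
            exact Nat.mul_dvd_mul (dvd_pow_self 2 (by omega)) (pow_dvd_pow 3 (by omega))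
        have := Nat.mul_dvd_mul e2 e3
        rwa [← mul_assoc, ← pow_add] at this
      exact not5 (a + b) b (h.trans hdvd)
    have key := unit_gen' hp5 (m := m) ψ (not5 a b) hφ hpar hm1 (by omega) (by
      intro k _ _ χ hχ hχpar
      -- pass to the algebraic closure
      set K := AlgebraicClosure k
      have hch : CharP K 5 := charP_of_injective_algebraMap (algebraMap k K).injective 5
      obtain ⟨θ, hθ⟩ := IsAlgClosed.exists_pow_nat_eq (2 : K) (n := 2) (by norm_num)
      set χ' : MulChar (ZMod (2 ^ a * 3 ^ b)) K := χ.ringHomComp (algebraMap k K) with hχ'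
      have hval : ∀ x, χ' x = algebraMap k K (χ x) := fun x => rfl
      have hne : ∀ x, ψ x ≠ 1 → χ' x ≠ 1 := by
        intro x hx h
        apply hχ x hx
        rw [hval] at h
        exact (algebraMap k K).injective (by rw [h, map_one])
      have D : DatG a b m χ' := by
        refine ⟨fun h => hne _ (prim_two h ψ hprim), fun h => hne _ (prim_three h ψ hprim), ?_, ?_⟩
        · intro hb
          subst hb
          obtain ⟨u, hu1, hu2, hu3⟩ := prim_exists hN0 ψ hprim (d := 2 ^ a) ⟨3, by ring⟩ (by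
            have : 0 < 2 ^ a := by positivity
            omega)
          intro h2
          apply hne _ hu3
          rw [cc_nat (cop23 a 1) χ']
          have e1 : (u : ZMod (2 ^ a)) = 1 := by
            have := (ZMod.natCast_eq_natCast_iff _ _ _).2 hu2
            rw [this, Nat.cast_one]
          rw [e1, map_one, one_mul]
          have hu3' : u.Coprime 3 := Nat.Coprime.coprime_dvd_right ((dvd_pow_self 3 (by norm_num)).trans (dvd_mul_left _ _)) hu1
          have h3 : ¬ 3 ∣ u := fun h => by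
            have := Nat.dvd_gcd h (dvd_refl 3)
            rw [hu3'] at this
            omega
          have h4 : u % 3 = 1 ∨ u % 3 = 2 := by omega
          have e2 : (u : ZMod (3 ^ 1)) = ((u % 3 : ℕ) : ZMod (3 ^ 1)) := by
            rw [ZMod.natCast_eq_natCast_iff, pow_one]
            exact (Nat.mod_modEq u 3).symm
          rw [e2]
          rcases h4 with h4 | h4
          · rw [h4, Nat.cast_one, map_one]
          · rw [h4]
            exact_mod_cast h2
        · rw [hval, hχpar, map_pow, map_neg, map_one]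
      constructor
      · intro hS
        have hcore := core5 (m := m) D hθ ha1 h00 hm1 hm4 ⟨x4, x5, x6⟩
        apply hcore
        have h1 := congrArg (algebraMap k K) hS
        rw [map_zero, map_sum] at h1
        rw [← h1]
        refine Finset.sum_congr rfl fun x _ => ?_
        rw [map_mul, hval]
        congr 1
        have h2 : algebraMap k K (Polynomial.aeval ((x : k) / (2 ^ a * 3 ^ b : ℕ)) (FF m)) =
            Polynomial.aeval (algebraMap k K ((x : k) / (2 ^ a * 3 ^ b : ℕ))) (FF m) :=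
          (Polynomial.aeval_algHom_apply (algebraMap k K).toIntAlgHom ((x : k) / (2 ^ a * 3 ^ b : ℕ)) (FF m)).symm
        rw [h2, map_div₀, map_natCast, map_natCast]
        rfl
      · intro hm
        subst hm
        intro h
        have he := euler5 D ha1 (fun h => x2 ⟨h.1, h.2, rfl⟩) (fun h => x3 ⟨h.1, h.2, rfl⟩)
        apply he
        rw [hval, h, map_one]) (sum_char hN0 ψ hψ1)
    rw [lValue_eq hN1]
    exact key

end Pool.Agent.Results.MP_c2a07f_nt.FiveTwoThreePowers
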