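import Pool.Agent.Q23.EG.Fin

/-!
# Greenberg's conjecture: levels with a large part at a finite set of primes

Let `p` be an odd prime and `D ≥ 1`; let `g ≥ 1` with `p^g ≡ 1` modulo `2 D` and modulo `φ(D)`. Let `N₁` be prime to
`p` with `p ∤ φ(N₁)`, and let `W` be prime to `N₁` such that all prime factors of `W` divide `D`. If

  `W > (2 D p^(g+1) N₁^2) ^ ((φ(2 D)/2 + 2)^s - 1)`,   `s` the number of prime factors of `D`,

then for all `1 ≤ m ≤ p - 1` and all characters `ψ` modulo `N₁ W` with `W ∣ cond(ψ)` and `ψ(-1) = (-1)^m` the value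

  `L_p(1 - m, θ) = - (1 - ψ(p) p^(m-1)) B_{m,ψ} / m`,   `θ = ψ ω^m`,

of the `p`-adic `L`-function is a unit at all places above `p`.

Proof. Write `W = W₁ Q` such that all prime powers of `Q` are large compared with `W₁` (file `Gap.lean`), replace `N₁`
by `N₁ W₁` and write `Q = M E`, where `E` is the part of `q - 1` at the primes of `Q` for a suitable power `q` of `p`.
Suppose that the reduction of the value in characteristic `p` is zero. Expand the character modulo `Q` by Gauss sums.
Taking traces over the field with `q` elements gives, for each class `a` modulo `M`, a relation between the values at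
`q`-th roots of unity `e(a h)` of sums over `0 ≤ y < N`, where `h` runs through the group `G` of the classes modulo `M` of
elements on which the `(q-1)`-st power of the character is trivial. Up to the factor `(1 - Z^L)^m`, `L = N₁ W₁ E`,
these sums are polynomials in `Z` of degree less than `m L`. By the pigeonhole principle there is a nonzero linear
functional on the classes of `G` which is compatible with all additive relations modulo `M` with small coefficients and
which separates the classes up to the sign. With it one compares the coefficients at extreme exponents and finds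
that the polynomial belonging to the class of `1` is zero. But it is not, by Fourier inversion modulo `L`.
-/

set_option autoImplicit false

namespace Pool.Agent.Results.MP_c2a07f_nt.LargeSmoothPart

/-- The generalized Bernoulli number `B_{m,ψ} = N^(m-1) ∑_{a=1}^N ψ(a) B_m(a/N)`. -/
noncomputable def genBernoulli (m : ℕ) {N : ℕ} (ψ : DirichletCharacter ℂ N) : ℂ :=
  (N : ℂ) ^ (m - 1) * ∑ a ∈ Finset.Icc 1 N, ψ (a : ZMod N) *
    (((Polynomial.bernoulli m).eval ((a : ℚ) / N) : ℚ) : ℂ)

/-- `(1 - ψ(p) p^(m-1)) B_{m,ψ} / m`, the value at `1 - m` of the `L`-function of `ψ` without Euler factor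
at `p` (up to the sign). -/
noncomputable def lValue (p m : ℕ) {N : ℕ} (ψ : DirichletCharacter ℂ N) : ℂ :=
  (1 - ψ (p : ZMod N) * (p : ℂ) ^ (m - 1)) * genBernoulli m ψ / m

/-- `z` is a unit at all places above `p`: it is not zero, and for some integer `c` prime to `p` the numbers
`c z` and `c / z` are algebraic integers. -/
def IsUnitAt (p : ℕ) (z : ℂ) : Prop :=
  z ≠ 0 ∧ ∃ c : ℤ, IsCoprime (p : ℤ) c ∧ IsIntegral ℤ ((c : ℂ) * z) ∧ IsIntegral ℤ ((c : ℂ) * z⁻¹)

open Finset Pool.Agent.Y18.GX Pool.Agent.Q23.EF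

lemma sum_Icc {N : ℕ} (f : ℕ → ℂ) (h0 : f 0 = 0) (hN : f N = 0) :
    ∑ a ∈ Icc 1 N, f a = ∑ a ∈ range N, f a := by
  rcases Nat.eq_zero_or_pos N with h | h
  · subst h
    simp
  · have h1 : ∑ a ∈ range (N + 1), f a = ∑ a ∈ range N, f a + f N := Finset.sum_range_succ f N
    have h2 : ∑ a ∈ range (N + 1), f a = ∑ a ∈ Icc 1 N, f a + f 0 := by
      rw [Finset.sum_range_succ']
      congr 1
      refine Finset.sum_bij (fun a _ => a + 1) ?_ ?_ ?_ (fun _ _ => rfl)
      · intro a ha
        have := mem_range.1 ha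
        rw [mem_Icc]
        omega
      · intro a _ b _ hab
        omega
      · intro b hb
        rw [mem_Icc] at hb
        exact ⟨b - 1, mem_range.2 (by omega), by omega⟩
    rw [h1, hN, h0, add_zero, add_zero] at h2
    exact h2.symm

lemma lValue_eq {p m N : ℕ} (hN1 : N ≠ 1) (ψ : DirichletCharacter ℂ N) : lValue p m ψ = valSum p m ψ := by
  unfold lValue genBernoulli valSum
  rw [sum_Icc]
  · rw [Nat.cast_zero, DirichletCharacter.map_zero' ψ hN1, zero_mul]
  · rw [ZMod.natCast_self, DirichletCharacter.map_zero' ψ hN1, zero_mul]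

/-- **Main theorem.** -/
theorem result {p : ℕ} (hp : p.Prime) (hp2 : p ≠ 2) {D g N₁ W m : ℕ} (hg : 1 ≤ g)
    (hgD : p ^ g ≡ 1 [MOD 2 * D]) (hgφ : p ^ g ≡ 1 [MOD D.totient]) (hpN : ¬ p ∣ N₁ * N₁.totient)
    (hcop : N₁.Coprime W) (hW : ∀ ℓ : ℕ, ℓ.Prime → ℓ ∣ W → ℓ ∣ D)
    (hbig : (2 * D * p ^ (g + 1) * N₁ ^ 2) ^ (((2 * D).totient / 2 + 2) ^ D.primeFactors.card - 1) < W)
    (hm1 : 1 ≤ m) (hmp : m ≤ p - 1) (ψ : DirichletCharacter ℂ (N₁ * W)) (hc : W ∣ ψ.conductor)
    (hpar : ψ (-1) = (-1) ^ m) : IsUnitAt p (lValue p m ψ) := by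
  have hpg : 1 ≤ p ^ g := Nat.one_le_pow _ _ hp.pos
  have h1 : 2 * D ∣ p ^ g - 1 := (Nat.modEq_iff_dvd' hpg).1 hgD.symm
  have h2 : D.totient ∣ p ^ g - 1 := (Nat.modEq_iff_dvd' hpg).1 hgφ.symm
  have hN0 : N₁ ≠ 0 := by
    rintro rfl
    exact hpN (by simp)
  have hD0 : D ≠ 0 := by
    rintro rfl
    rw [mul_zero, zero_dvd_iff] at h1
    have := Nat.one_lt_pow (by omega : g ≠ 0) hp.one_lt
    omega
  have hN1 : N₁ * W ≠ 1 := by
    intro h
    have h3 : W = 1 := Nat.eq_one_of_mul_eq_one_left h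
    rw [h3] at hbig
    have h4 : 1 ≤ (2 * D * p ^ (g + 1) * N₁ ^ 2) ^ (((2 * D).totient / 2 + 2) ^ D.primeFactors.card - 1) :=
      Nat.one_le_pow _ _ (Nat.mul_pos (Nat.mul_pos (by omega) (pow_pos hp.pos _))
        (pow_pos (Nat.pos_of_ne_zero hN0) _))
    omega
  rw [lValue_eq hN1]
  exact Pool.Agent.Q23.EG.final hp hp2 (by omega) h1 h2 hpN hcop hW hbig hm1 hmp ψ hc hpar

end Pool.Agent.Results.MP_c2a07f_nt.LargeSmoothPart
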