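import Pool.Agent.Q23.EF.Final

/-!
# Greenberg's conjecture: all levels `N₁ 2^a 3^b` with `2^a 3^b` beyond an explicit bound

Let `p ≥ 5` be a prime and `N₁` prime to `6 p` with `p ∤ φ(N₁)`. For all `a`, `b` with
`2^a 3^b ≥ 4 (p N₁)^3 p^(8 φ(φ(N₁)))`, all characters `ψ` modulo `N₁ 2^a 3^b` with conductor divisible by
`2^a 3^b` and all `1 ≤ m ≤ p - 1` with `ψ(-1) = (-1)^m` the value

  `L_p(1 - m, θ) = - (1 - ψ(p) p^(m-1)) B_{m,ψ} / m`,   `θ = ψ ω^m`,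

of the `p`-adic `L`-function is a unit at all places above `p`. For `N₁ = 1` the bound is `4 p^11`. A refined
bound uses the part of `p^g - 1` at `2` and `3`, where `g` is even and the units modulo `N₁` have exponent
dividing `p^g - 1`.

Proof. If `2^a` is small, this is the theorem of the starting files for the prime `3` and the level `N₁ 2^a`,
applied to a larger power of `p`; similarly if `3^b` is small. If both are large, the traces of the values of `ψ`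
over the field with `p^g` elements give relations between the sums over two residue classes
`s 3^B + N₁ 2^A` and `s 3^B - N₁ 2^A` modulo `2^A 3^B`. For `m` consecutive `s` in a residue class these are the values
of a polynomial of degree less than `m`. Its top coefficient vanishes, and comparing two values of `s` gives a
contradiction.
-/

set_option autoImplicit false

namespace Pool.Agent.Results.MP_c2a07f_nt.LargeTwoThreeLevels

/-- The generalized Bernoulli number `B_{m,ψ} = N^(m-1) ∑_{a=1}^N ψ(a) B_m(a/N)`. -/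
noncomputable def genBernoulli (m : ℕ) {N : ℕ} (ψ : DirichletCharacter ℂ N) : ℂ :=
  (N : ℂ) ^ (m - 1) * ∑ a ∈ Finset.Icc 1 N, ψ (a : ZMod N) *
    (((Polynomial.bernoulli m).eval ((a : ℚ) / N) : ℚ) : ℂ)

/-- `(1 - ψ(p) p^(m-1)) B_{m,ψ} / m`, the value at `1 - m` of the `L`-function of `ψ` without Euler factor
at `p` (up to the sign). -/
noncomputable def lValue (p m : ℕ) {N : ℕ} (ψ : DirichletCharacter ℂ N) : ℂ :=
  (1 - ψ (p : ZMod N) * (p : ℂ) ^ (m - 1)) * genBernoulli m ψ / m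

/-- `z` is a unit at all places above `p`: it is not zero, and for some integer `c` prime to `p` the numbers
`c z` and `c / z` are algebraic integers. -/
def IsUnitAt (p : ℕ) (z : ℂ) : Prop :=
  z ≠ 0 ∧ ∃ c : ℤ, IsCoprime (p : ℤ) c ∧ IsIntegral ℤ ((c : ℂ) * z) ∧ IsIntegral ℤ ((c : ℂ) * z⁻¹)

open Finset Pool.Agent.Y18.GX Pool.Agent.Q23.EF

lemma sum_Icc {N : ℕ} (f : ℕ → ℂ) (h0 : f 0 = 0) (hN : f N = 0) :
    ∑ a ∈ Icc 1 N, f a = ∑ a ∈ range N, f a := by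
  rcases Nat.eq_zero_or_pos N with h | h
  · subst h
    simp
  · have h1 : ∑ a ∈ range (N + 1), f a = ∑ a ∈ range N, f a + f N := Finset.sum_range_succ f N
    have h2 : ∑ a ∈ range (N + 1), f a = ∑ a ∈ Icc 1 N, f a + f 0 := by
      rw [Finset.sum_range_succ']
      congr 1
      refine Finset.sum_bij (fun a _ => a + 1) ?_ ?_ ?_ (fun _ _ => rfl)
      · intro a ha
        have := mem_range.1 ha
        rw [mem_Icc]
        omega
      · intro a _ b _ hab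
        omega
      · intro b hb
        rw [mem_Icc] at hb
        exact ⟨b - 1, mem_range.2 (by omega), by omega⟩
    rw [h1, hN, h0, add_zero, add_zero] at h2
    exact h2.symm

lemma lValue_eq {p m N : ℕ} (hN1 : N ≠ 1) (ψ : DirichletCharacter ℂ N) : lValue p m ψ = valSum p m ψ := by
  unfold lValue genBernoulli valSum
  rw [sum_Icc]
  · rw [Nat.cast_zero, DirichletCharacter.map_zero' ψ hN1, zero_mul]
  · rw [ZMod.natCast_self, DirichletCharacter.map_zero' ψ hN1, zero_mul]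

/-- the refined form -/
theorem refined {p : ℕ} (hp : p.Prime) (h5 : 5 ≤ p) {N₁ g r s u : ℕ} (hN₁ : N₁.Coprime 6) (hpN : ¬ p ∣ N₁)
    (hg : Even g) (hexp : ∀ x : ℕ, x.Coprime N₁ → x ^ (p ^ g - 1) ≡ 1 [MOD N₁])
    (hq : p ^ g - 1 = 2 ^ r * 3 ^ s * u) (hu : u.Coprime 6) {a b m : ℕ} (hm1 : 1 ≤ m) (hmp : m ≤ p - 1)
    (hsize : 4 * (m * N₁) ^ 3 * (2 ^ r * 3 ^ s) ^ 4 ≤ 2 ^ a * 3 ^ b)
    (ψ : DirichletCharacter ℂ (N₁ * (2 ^ a * 3 ^ b))) (hc : 2 ^ a * 3 ^ b ∣ ψ.conductor)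
    (hpar : ψ (-1) = (-1) ^ m) : IsUnitAt p (lValue p m ψ) := by
  have hN0 : N₁ ≠ 0 := by
    rintro rfl
    exact hpN (dvd_zero _)
  have hN1 : N₁ * (2 ^ a * 3 ^ b) ≠ 1 := by
    intro h
    have h1 : 2 ^ a * 3 ^ b = 1 := Nat.eq_one_of_mul_eq_one_left h
    rw [h1] at hsize
    have h2 : 1 ≤ (m * N₁) ^ 3 :=
      Nat.one_le_pow _ _ (Nat.mul_pos (by omega) (Nat.pos_of_ne_zero hN0))
    have h3 : 1 ≤ (2 ^ r * 3 ^ s) ^ 4 := Nat.one_le_pow _ _ (by positivity)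
    have h4 : 4 * 1 * 1 ≤ 4 * (m * N₁) ^ 3 * (2 ^ r * 3 ^ s) ^ 4 :=
      Nat.mul_le_mul (Nat.mul_le_mul_left 4 h2) h3
    omega
  rw [lValue_eq hN1]
  exact main hp h5 hN₁ hpN hg hexp hq hu hm1 hmp hsize ψ hc hpar

/-- the form without parameters -/
theorem clean {p : ℕ} (hp : p.Prime) (h5 : 5 ≤ p) {N₁ : ℕ} (hN₁ : N₁.Coprime 6) (hpN : ¬ p ∣ N₁ * N₁.totient)
    {a b m : ℕ} (hm1 : 1 ≤ m) (hmp : m ≤ p - 1)
    (hsize : 4 * (p * N₁) ^ 3 * p ^ (8 * N₁.totient.totient) ≤ 2 ^ a * 3 ^ b)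
    (ψ : DirichletCharacter ℂ (N₁ * (2 ^ a * 3 ^ b))) (hc : 2 ^ a * 3 ^ b ∣ ψ.conductor)
    (hpar : ψ (-1) = (-1) ^ m) : IsUnitAt p (lValue p m ψ) := by
  have hpN' : ¬ p ∣ N₁ := fun h => hpN (h.mul_right _)
  have hpφ : ¬ p ∣ N₁.totient := fun h => hpN (h.mul_left _)
  have hN0 : 0 < N₁ := Nat.pos_of_ne_zero (by
    rintro rfl
    exact hpN' (dvd_zero _))
  have hφ0 : 0 < N₁.totient := Nat.totient_pos.2 hN0
  have hφφ0 : 0 < N₁.totient.totient := Nat.totient_pos.2 hφ0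
  set f := N₁.totient.totient with hf
  have hpg : 1 < p ^ (2 * f) := Nat.one_lt_pow (by omega) (by omega)
  have hdvd : N₁.totient ∣ p ^ (2 * f) - 1 := by
    have h1 : p ^ f ≡ 1 [MOD N₁.totient] := Nat.ModEq.pow_totient ((Nat.Prime.coprime_iff_not_dvd hp).2 hpφ)
    have h2 := h1.pow 2
    rw [one_pow, ← pow_mul, mul_comm f 2] at h2
    exact (Nat.modEq_iff_dvd' hpg.le).1 h2.symm
  have hexp : ∀ x : ℕ, x.Coprime N₁ → x ^ (p ^ (2 * f) - 1) ≡ 1 [MOD N₁] := by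
    intro x hx
    obtain ⟨w, hw⟩ := hdvd
    have h1 := (Nat.ModEq.pow_totient hx).pow w
    rw [one_pow, ← pow_mul, ← hw] at h1
    exact h1
  obtain ⟨r, v, hv, hv'⟩ := Nat.exists_eq_pow_mul_and_not_dvd (show p ^ (2 * f) - 1 ≠ 0 by omega) 2 (by norm_num)
  obtain ⟨s, u, hu, hu'⟩ : ∃ s u, ¬ 3 ∣ u ∧ v = 3 ^ s * u :=
    Nat.exists_eq_pow_mul_and_not_dvd (show v ≠ 0 by
      rintro rfl
      exact hv (dvd_zero _)) 3 (by norm_num)
  have hq : p ^ (2 * f) - 1 = 2 ^ r * 3 ^ s * u := by rw [hv', hu']; ring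
  have hu6 : u.Coprime 6 := by
    rw [cop6_iff]
    constructor
    · rw [Nat.coprime_comm, Nat.Prime.coprime_iff_not_dvd Nat.prime_two]
      intro h
      apply hv
      rw [hu']
      exact h.mul_left _
    · rw [Nat.coprime_comm, Nat.Prime.coprime_iff_not_dvd Nat.prime_three]
      exact hu
  refine refined hp h5 hN₁ hpN' ⟨f, by ring⟩ hexp hq hu6 hm1 hmp (le_trans ?_ hsize) ψ hc hpar
  have hu0 : 0 < u := Nat.pos_of_ne_zero (by
    rintro rfl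
    exact hu (dvd_zero _))
  have h1 : 2 ^ r * 3 ^ s ≤ p ^ (2 * f) := by
    calc 2 ^ r * 3 ^ s ≤ 2 ^ r * 3 ^ s * u := Nat.le_mul_of_pos_right _ hu0
      _ = p ^ (2 * f) - 1 := hq.symm
      _ ≤ p ^ (2 * f) := Nat.sub_le _ _
  have h2 : (2 ^ r * 3 ^ s) ^ 4 ≤ p ^ (8 * f) := by
    calc (2 ^ r * 3 ^ s) ^ 4 ≤ (p ^ (2 * f)) ^ 4 := Nat.pow_le_pow_left h1 4
      _ = p ^ (8 * f) := by rw [← pow_mul]; congr 1; ring
  have h3 : (m * N₁) ^ 3 ≤ (p * N₁) ^ 3 := Nat.pow_le_pow_left (Nat.mul_le_mul_right _ (by omega)) 3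
  exact Nat.mul_le_mul (Nat.mul_le_mul_left 4 h3) h2

/-- **Main theorem.** First part: no parameters; second part: the refined bound. -/
theorem result {p : ℕ} (hp : p.Prime) (h5 : 5 ≤ p) {N₁ : ℕ} (hN₁ : N₁.Coprime 6)
    (hpN : ¬ p ∣ N₁ * N₁.totient) {a b m : ℕ} (hm1 : 1 ≤ m) (hmp : m ≤ p - 1)
    (ψ : DirichletCharacter ℂ (N₁ * (2 ^ a * 3 ^ b))) (hc : 2 ^ a * 3 ^ b ∣ ψ.conductor)
    (hpar : ψ (-1) = (-1) ^ m)
    (hsize : 4 * (p * N₁) ^ 3 * p ^ (8 * N₁.totient.totient) ≤ 2 ^ a * 3 ^ b ∨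
      ∃ g r s u : ℕ, Even g ∧ (∀ x : ℕ, x.Coprime N₁ → x ^ (p ^ g - 1) ≡ 1 [MOD N₁]) ∧
        p ^ g - 1 = 2 ^ r * 3 ^ s * u ∧ u.Coprime 6 ∧
        4 * (m * N₁) ^ 3 * (2 ^ r * 3 ^ s) ^ 4 ≤ 2 ^ a * 3 ^ b) :
    IsUnitAt p (lValue p m ψ) := by
  rcases hsize with h | ⟨g, r, s, u, hg, hexp, hq, hu, h⟩
  · exact clean hp h5 hN₁ hpN hm1 hmp h ψ hc hpar
  · exact refined hp h5 hN₁ (fun h' => hpN (h'.mul_right _)) hg hexp hq hu hm1 hmp h ψ hc hpar

end Pool.Agent.Results.MP_c2a07f_nt.LargeTwoThreeLevels
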