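import Mathlib
import Pool.Agent.Q53.GB.Main

/-!
# Greenberg's conjecture: many components of every `ψ` vanish, for all levels `N` and all `p`

Let `ψ` be a primitive Dirichlet character modulo `N > 1` and let `p` be a prime not dividing `N`. The values

  `L_p(1 - m, θ) = - (1 - ψ(p) p^(m-1)) B_{m,ψ} / m`,   `θ = ψ ω^m`,   `1 ≤ m ≤ p - 1`,

are considered at one place above `p`. If such a value is a unit, then the component `X_θ` of the Iwasawa
module is zero. We show that among the first `K < p` values of `m` at least `√(K / φ(N)) - 2` are units, that every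
interval `(a, (φ(N) + 1) a]` below `p` contains such an `m`, and a common form of these two statements.

Proof. Modulo `p` the numbers `B_{m,ψ} / m!`, `m < p`, are the coefficients of `f = R(e^t) / Φ_N(e^t)`, where
`R` is a polynomial of degree less than `φ(N)`. If only `u` of the first `K` coefficients are not zero, the product of the
`u` operators `t d/dt - s` kills `f` up to `t^K`; this gives an exponential polynomial with `(u + 1) φ(N)`
frequencies and coefficients of degree at most `u` which vanishes to the order `K` at `t = 0`. It is not zero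
because of the poles of `f` in the variable `x = e^t`, so that `K < (u + 1)^2 φ(N)` by a zero estimate.
-/

set_option autoImplicit false

namespace Pool.Agent.Results.MP_c2a07f_nt.UnitValuesInSegments

variable {F : Type*} [Field F]

/-- The generalized Bernoulli number `B_{m,ψ} = N^(m-1) ∑_{a=1}^N ψ(a) B_m(a/N)`. -/
noncomputable def genBernoulli [CharZero F] (m : ℕ) {N : ℕ} (ψ : DirichletCharacter F N) : F :=
  (N : F) ^ (m - 1) * ∑ a ∈ Finset.Icc 1 N, ψ (a : ZMod N) *
    (((Polynomial.bernoulli m).eval ((a : ℚ) / N) : ℚ) : F)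

/-- `(1 - ψ(p) p^(m-1)) B_{m,ψ} / m`, the value at `1 - m` of the `L`-function of `ψ` without Euler factor
at `p` (up to the sign). -/
noncomputable def lValue [CharZero F] (p m : ℕ) {N : ℕ} (ψ : DirichletCharacter F N) : F :=
  (1 - ψ (p : ZMod N) * (p : F) ^ (m - 1)) * genBernoulli m ψ / m

/-- the set of the `m`, `a < m ≤ K`, for which the value is a unit of `A` -/
def Good [CharZero F] (A : ValuationSubring F) (p : ℕ) {N : ℕ} (ψ : DirichletCharacter F N)
    (a K : ℕ) : Set ℕ :=
  {m | a < m ∧ m ≤ K ∧ A.valuation (lValue p m ψ) = 1}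

theorem result [CharZero F] (A : ValuationSubring F) (p N : ℕ) (hp : p.Prime)
    (hA : A.valuation (p : F) < 1) (hN : 1 < N) (hpN : N.Coprime p) (ψ : DirichletCharacter F N)
    (hψ : ψ.IsPrimitive) :
    -- initial segments
    (∀ K : ℕ, K < p → K < N.totient * ((Good A p ψ 0 K).ncard + 2) ^ 2) ∧
    -- all intervals
    (∀ a K : ℕ, 1 ≤ a → K < p →
      K < (N.totient * ((Good A p ψ a K).ncard + 1) + 1) * (a + (Good A p ψ a K).ncard)) ∧
    -- existence
    (4 * N.totient < p → ∃ m ∈ Good A p ψ 0 (4 * N.totient), 1 ≤ m) ∧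
    (∀ a : ℕ, 1 ≤ a → (N.totient + 1) * a < p →
      ∃ m, m ∈ Good A p ψ a ((N.totient + 1) * a)) := by
  classical
  have : NeZero N := ⟨by omega⟩
  have hset : ∀ a K : ℕ, Good A p ψ a K = ((Pool.Agent.Q53.GB.UU A p ψ a K : Finset ℕ) : Set ℕ) := by
    intro a K
    ext m
    unfold Good Pool.Agent.Q53.GB.UU
    rw [Finset.mem_coe, Finset.mem_filter, Finset.mem_Ioc, Set.mem_setOf_eq, and_assoc]
    rfl
  have hcard : ∀ a K : ℕ, (Good A p ψ a K).ncard = (Pool.Agent.Q53.GB.UU A p ψ a K).card := by
    intro a K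
    rw [hset, Set.ncard_coe_finset]
  have h1 : ∀ K : ℕ, K < p → K < N.totient * ((Good A p ψ 0 K).ncard + 2) ^ 2 := by
    intro K hK
    rw [hcard]
    exact Pool.Agent.Q53.GB.main_segment A hp hA hN hpN hψ K hK.le
  have h2 : ∀ a K : ℕ, 1 ≤ a → K < p →
      K < (N.totient * ((Good A p ψ a K).ncard + 1) + 1) * (a + (Good A p ψ a K).ncard) := by
    intro a K ha hK
    rw [hcard]
    exact Pool.Agent.Q53.GB.main_interval A hp hA hN hpN hψ a K ha hK.le
  refine ⟨h1, h2, ?_, ?_⟩
  · intro h
    have h3 := h1 _ h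
    have h4 : (Good A p ψ 0 (4 * N.totient)).ncard ≠ 0 := by
      intro h5
      rw [h5] at h3
      omega
    obtain ⟨m, hm⟩ := Set.nonempty_of_ncard_ne_zero h4
    exact ⟨m, hm, hm.1⟩
  · intro a ha h
    have h3 := h2 a _ ha h
    have h4 : (Good A p ψ a ((N.totient + 1) * a)).ncard ≠ 0 := by
      intro h5
      rw [h5] at h3
      simp at h3
    exact Set.nonempty_of_ncard_ne_zero h4

end Pool.Agent.Results.MP_c2a07f_nt.UnitValuesInSegments
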